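import Pool.Agent.helper71.CL.Spec

/-!
# Project cl: VON (sublevel sets of the farthest distance function)
-/

set_option autoImplicit false

open MeasureTheory Set Filter Topology
open scoped ENNReal
open Pool.Agent.helper81.CW

namespace Pool.Agent.CL

theorem VON (hFAR : FAR_stmt) (hJ1 : J1_stmt) (hJ2 : J2_stmt) : VON_stmt := by
  intro n C hC
  obtain ⟨hd, hcomp, -⟩ := hJ2 n C 1 hC
  have hne : C.Nonempty := hC.1
  have hco : IsCompact C := hC.2.1
  refine ⟨?_, ?_, fun ρ => ?_⟩
  · have h1 : {x : E n | far C x ≤ 1} = C := by
      ext x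
      constructor
      · intro hx
        exact hcomp x fun c hc => ((hFAR n C hco hne x x).1 c hc).trans hx
      · intro hx
        obtain ⟨c, hc, hcx⟩ := (hFAR n C hco hne x x).2.1
        show far C x ≤ 1
        rw [← hcx]
        exact hd x hx c hc
    unfold VV
    rw [h1]
  · obtain ⟨z, R, hR0, hR, hz⟩ := hJ1 n C hco hne hd
    have hR1 : R < 1 := by nlinarith
    have hsub : Metric.ball z (1 - R) ⊆ C := by
      intro y hy
      apply hcomp
      intro x hx
      rw [Metric.mem_ball, dist_eq_norm] at hy
      have h1 : y - x = (y - z) - (x - z) := by abel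
      rw [h1]
      have h2 := norm_sub_le (y - z) (x - z)
      have h3 := hz x hx
      linarith
    exact (Metric.measure_ball_pos volume z (by linarith)).trans_le (measure_mono hsub)
  · obtain ⟨c, hc⟩ := hne
    have hsub : {x : E n | far C x ≤ ρ} ⊆ Metric.closedBall c ρ := by
      intro x hx
      rw [Metric.mem_closedBall, dist_eq_norm]
      exact ((hFAR n C hco ⟨c, hc⟩ x x).1 c hc).trans hx
    exact (measure_mono hsub).trans_lt measure_closedBall_lt_top

end Pool.Agent.CL
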