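import Pool.Agent.helper41.CL.Spec

set_option autoImplicit false

namespace Pool.Agent.helper41.CL

open Finset

theorem WB_lt (n r : ℕ) (h : n < r) : #(SimpleGraph.turanGraph n r).edgeFinset = n.choose 2 := by
  rw [SimpleGraph.card_edgeFinset_turanGraph, Nat.mod_eq_of_lt h, Nat.sub_self, zero_mul, Nat.zero_div, zero_add]

theorem WB_ch (a b : ℕ) : (a + b).choose 2 = a.choose 2 + b.choose 2 + a * b := by
  induction b with
  | zero => simp
  | succ b ih =>
    have e1 : (a + (b + 1)).choose 2 = (a + b) + (a + b).choose 2 := by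
      have := Nat.choose_succ_succ' (a + b) 1
      rw [Nat.choose_one_right] at this
      exact this
    have e2 : (b + 1).choose 2 = b + b.choose 2 := by
      have := Nat.choose_succ_succ' b 1
      rw [Nat.choose_one_right] at this
      exact this
    rw [e1, e2, ih, Nat.mul_succ]
    omega

theorem WB_le (n r : ℕ) (hr : 2 ≤ r) (h : n ≤ r) : #(SimpleGraph.turanGraph n r).edgeFinset = n.choose 2 := by
  rcases Nat.lt_or_ge n r with h' | h'
  · exact WB_lt n r h'
  · have h1 : n = r := le_antisymm h h'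
    subst h1
    have h2 := SimpleGraph.card_edgeFinset_turanGraph (n := n) (r := n)
    rw [h2, Nat.mod_self]
    have h3 : (n ^ 2 - 0 ^ 2) * (n - 1) / (2 * n) = n * (n - 1) / 2 := by
      have e : (n ^ 2 - 0 ^ 2) * (n - 1) = n * (n * (n - 1)) := by
        have : n ^ 2 - 0 ^ 2 = n * n := by
          rw [Nat.pow_two, Nat.pow_two, Nat.mul_zero, Nat.sub_zero]
        rw [this, Nat.mul_assoc]
      rw [e, Nat.mul_comm 2 n]
      exact Nat.mul_div_mul_left _ _ (by omega)
    rw [h3, Nat.choose_two_right]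
    simp [Nat.choose_two_right]

theorem WB_two (m r : ℕ) (hr : 2 ≤ r) (h : m ≤ r) :
    #(SimpleGraph.turanGraph (m + r) r).edgeFinset + m = (m + r).choose 2 := by
  have h2 := SimpleGraph.card_edgeFinset_turanGraph_add (n := m) (r := r)
  rw [WB_le m r hr h] at h2
  rw [h2, WB_ch m r]
  obtain ⟨s, rfl⟩ : ∃ s, r = s + 1 := ⟨r - 1, by omega⟩
  have h3 : s + 1 - 1 = s := by omega
  rw [h3, Nat.mul_succ]
  omega

theorem WB : WB_stmt := by
  intro n r hr
  refine ⟨fun h => WB_le n r hr h, fun h1 h2 => ?_, fun h => ?_⟩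
  · obtain ⟨m, rfl⟩ : ∃ m, n = m + r := ⟨n - r, by omega⟩
    have h3 : m + r - r = m := by omega
    rw [h3]
    exact WB_two m r hr (by omega)
  · have h1 : n = (1 + r) + r := by omega
    subst h1
    have h2 := SimpleGraph.card_edgeFinset_turanGraph_add (n := 1 + r) (r := r)
    have h3 := WB_two 1 r hr (by omega)
    rw [h2, WB_ch (1 + r) r, ← h3]
    obtain ⟨s, rfl⟩ : ∃ s, r = s + 1 := ⟨r - 1, by omega⟩
    have h4 : s + 1 - 1 = s := by omega
    rw [h4, Nat.mul_succ]
    omega

end Pool.Agent.helper41.CL
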